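import Pool.Agent.Helper96.RG.FRAC

/-!
# RG: module DNU
-/

namespace Pool.Agent.Helper67.RG

open Polynomial

namespace DNU

variable {ν : ℕ} {D : Pell ν} (T : Tower D)

theorem aeval_mem_B (P : MvPolynomial (Fin 12) ℂ) : MvPolynomial.aeval T.xx P ∈ T.B := by
  rw [← IRR.coe_aeval]
  exact (MvPolynomial.aeval T.x P).2

theorem s_mem_B : (X ^ 2 : Om[X]) ∈ T.B := by
  rw [← FRAC.aeval_sP T]
  exact aeval_mem_B T _

theorem t_mem_B : (C tau * X ^ 2 : Om[X]) ∈ T.B := by
  rw [← FRAC.aeval_tP T]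
  exact aeval_mem_B T _

theorem cube_mem (d : ℕ) (P : ℂ[X]) (hd : P.natDegree ≤ d) :
    monomial (6 * d) (aeval (tau ^ 3) P) ∈ T.B := by
  have h1 : aeval (tau ^ 3) P = aeval tau (P.comp (X ^ 3)) := by
    rw [aeval_comp, map_pow, aeval_X]
  have h2 : (P.comp (X ^ 3)).natDegree ≤ 3 * d := by
    refine natDegree_comp_le.trans ?_
    rw [natDegree_X_pow, mul_comm]
    exact Nat.mul_le_mul_left 3 hd
  have h3 := FRAC.aeval_hh T (3 * d) (P.comp (X ^ 3)) h2
  rw [← h1, ← mul_assoc] at h3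
  norm_num at h3
  rw [← h3]
  exact aeval_mem_B T _

theorem prod_mem_B (s : Finset (Fin 12)) : monomial s.card (T.rr s) ∈ T.B := by
  rw [← FRAC.prod_xx]
  exact aeval_mem_B T _

theorem wp_mem : monomial 6 T.w ∈ T.B := by
  have hν := D.hν
  refine ⟨?_, fun m => ?_⟩
  · have h1 : monomial 6 T.w ^ ν ∈ T.B := by
      have e : monomial 6 T.w ^ ν = monomial (6 * (ν - 1)) (aeval (tau ^ 3) D.p) *
          monomial I2.card (T.rr I2) + monomial (6 * (ν - 1)) (aeval (tau ^ 3) D.q) *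
          monomial I1.card (T.rr I1) := by
        have c1 : I2.card = 6 := by decide
        have c2 : I1.card = 6 := by decide
        rw [monomial_pow, T.hw', Tower.G, monomial_mul_monomial, monomial_mul_monomial, c1, c2,
          ← map_add]
        congr 1
        congr 1
        omega
      rw [e]
      exact T.B.add_mem (T.B.mul_mem (cube_mem T _ _ D.dp.le) (prod_mem_B T _))
        (T.B.mul_mem (cube_mem T _ _ D.dq.le) (prod_mem_B T _))
    exact IsIntegral.of_pow (by omega) h1.1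
  · rw [coeff_monomial]
    split_ifs with h
    · subst h
      have h := T.mem_E (s := ∅) (i := 1) (m := 6) (by omega) (by simp)
      simpa [Tower.rr] using h
    · exact Submodule.zero_mem _

theorem mono_mem (L b e i : ℕ) (h : b + e + 3 * i ≤ L) :
    monomial (2 * L) (tau ^ b * ((T.r 0 * T.r 1) ^ e * T.w ^ i)) ∈ T.B := by
  have e1 : monomial (2 * L) (tau ^ b * ((T.r 0 * T.r 1) ^ e * T.w ^ i)) =
      (C tau * X ^ 2) ^ b * (X ^ 2) ^ (L - b - e - 3 * i) * (T.xx 0 * T.xx 1) ^ e *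
        monomial 6 T.w ^ i := by
    rw [Tower.xx, Tower.xx, ← C_mul_X_pow_eq_monomial, ← C_mul_X_pow_eq_monomial,
      ← C_mul_X_pow_eq_monomial, ← C_mul_X_pow_eq_monomial]
    simp only [C_mul, C_pow, mul_pow, ← pow_mul]
    have e2 : (X : Om[X]) ^ (2 * L) = X ^ (2 * b) * X ^ (2 * (L - b - e - 3 * i)) *
        (X ^ (1 * e) * X ^ (1 * e)) * X ^ (6 * i) := by
      rw [← pow_add, ← pow_add, ← pow_add, ← pow_add]
      congr 1
      omega
    rw [e2]
    ring
  rw [e1]
  exact T.B.mul_mem (T.B.mul_mem (T.B.mul_mem (T.B.pow_mem (t_mem_B T) _)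
    (T.B.pow_mem (s_mem_B T) _)) (T.B.pow_mem (T.B.mul_mem (T.xx_mem 0) (T.xx_mem 1)) _))
    (T.B.pow_mem (wp_mem T) _)

/-- The coefficient map. -/
noncomputable def phi (n : ℕ) : T.grB n →ₗ[ℂ] Om where
  toFun z := ((z : T.B) : Om[X]).coeff n
  map_add' a b := by
    rw [Submodule.coe_add, Subalgebra.coe_add, coeff_add]
  map_smul' c a := by
    rw [Submodule.coe_smul, Subalgebra.coe_smul, coeff_smul]
    rfl

/-- The family. -/
noncomputable def vv (L K : ℕ) (h : K + 3 * ν ≤ L) (p : Fin K × (Fin 2 × Fin ν)) : T.grB (2 * L) :=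
  ⟨⟨monomial (2 * L) (tau ^ (p.1 : ℕ) * ((T.r 0 * T.r 1) ^ (p.2.1 : ℕ) * T.w ^ (p.2.2 : ℕ))),
    mono_mem T L p.1 p.2.1 p.2.2 (by
      have := p.1.2
      have := p.2.1.2
      have := p.2.2.2
      omega)⟩, ⟨_, rfl⟩⟩

theorem pow_indep (K : ℕ) :
    LinearIndependent ℂ (fun k : Fin K => (RatFunc.X : RatFunc ℂ) ^ (k : ℕ)) := by
  have h1 : LinearIndependent ℂ (fun k : ℕ => (X : ℂ[X]) ^ k) := by
    have := (Polynomial.basisMonomials ℂ).linearIndependent
    simpa [monomial_one_right_eq_X_pow] using this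
  have h2 : LinearIndependent ℂ (fun k : ℕ => (RatFunc.X : RatFunc ℂ) ^ k) := by
    have h3 := h1.map' ((Algebra.ofId ℂ[X] (RatFunc ℂ)).restrictScalars ℂ).toLinearMap (by
      rw [LinearMap.ker_eq_bot]
      exact RatFunc.algebraMap_injective ℂ)
    have e : (((Algebra.ofId ℂ[X] (RatFunc ℂ)).restrictScalars ℂ).toLinearMap ∘
        fun k : ℕ => (X : ℂ[X]) ^ k) = fun k : ℕ => (RatFunc.X : RatFunc ℂ) ^ k := by
      funext k
      show algebraMap ℂ[X] (RatFunc ℂ) (X ^ k) = _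
      rw [map_pow, RatFunc.algebraMap_X]
    rwa [e] at h3
  exact h2.comp _ Fin.val_injective

theorem vv_indep (hI : ST_IND) (L K : ℕ) (h : K + 3 * ν ≤ L) :
    LinearIndependent ℂ (vv T L K h) := by
  classical
  refine LinearIndependent.of_comp (phi T (2 * L)) ?_
  have h1 : LinearIndependent (RatFunc ℂ) (fun p : Fin 2 × Fin ν =>
      (T.r 0 * T.r 1) ^ (p.1 : ℕ) * T.w ^ (p.2 : ℕ)) := by
    have h2 := (hI ν D T).comp (fun p : Fin 2 × Fin ν =>
      ((if (p.1 : ℕ) = 0 then ∅ else {0, 1} : Finset (Fin 12)), p.2)) (by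
        rintro ⟨a, b⟩ ⟨c, d⟩ h
        simp only [Prod.mk.injEq] at h
        obtain ⟨h1, h2⟩ := h
        refine Prod.ext ?_ h2
        have hne : (∅ : Finset (Fin 12)) ≠ {0, 1} := by decide
        apply Fin.ext
        have := a.2
        have := c.2
        by_cases ha : (a : ℕ) = 0
        · by_cases hc : (c : ℕ) = 0
          · show (a : ℕ) = c
            omega
          · rw [if_pos ha, if_neg hc] at h1
            exact absurd h1 hne
        · by_cases hc : (c : ℕ) = 0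
          · rw [if_neg ha, if_pos hc] at h1
            exact absurd h1.symm hne
          · show (a : ℕ) = c
            omega)
    have e : ((fun p : Finset (Fin 12) × Fin ν => T.rr p.1 * T.w ^ (p.2 : ℕ)) ∘
        fun p : Fin 2 × Fin ν => ((if (p.1 : ℕ) = 0 then ∅ else {0, 1} : Finset (Fin 12)), p.2)) =
        fun p : Fin 2 × Fin ν => (T.r 0 * T.r 1) ^ (p.1 : ℕ) * T.w ^ (p.2 : ℕ) := by
      funext p
      have hp := p.1.2
      simp only [Function.comp]
      congr 1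
      by_cases h0 : (p.1 : ℕ) = 0
      · rw [if_pos h0, h0, pow_zero, Tower.rr, Finset.prod_empty]
      · have : (p.1 : ℕ) = 1 := by omega
        rw [if_neg h0, this, pow_one, Tower.rr, Finset.prod_pair (by decide)]
    rwa [e] at h2
  have h3 := linearIndependent_smul (pow_indep K) h1
  have e : (phi T (2 * L)) ∘ (vv T L K h) = fun p : Fin K × (Fin 2 × Fin ν) =>
      (RatFunc.X : RatFunc ℂ) ^ (p.1 : ℕ) • ((T.r 0 * T.r 1) ^ (p.2.1 : ℕ) *
        T.w ^ (p.2.2 : ℕ)) := by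
    funext p
    show (monomial (2 * L) _ : Om[X]).coeff (2 * L) = _
    rw [coeff_monomial, if_pos rfl, Algebra.smul_def, map_pow]
    rfl
  rw [e]
  exact h3

end DNU

open DNU in
theorem st_DNU (hI : ST_IND) (hF : ST_FD) : ST_DNU := by
  intro ν D T M d c h
  by_contra hlt
  push Not at hlt
  have key : ∀ L : ℕ, M ≤ 2 * L → 3 * ν ≤ L →
      ((L - 3 * ν : ℕ) : ℤ) * (2 * ν) ≤ (2 * L) * d + c := by
    intro L h1 h2
    have := hF ν D T (2 * L)
    have h3 := (vv_indep T hI L (L - 3 * ν) (by omega)).fintype_card_le_finrank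
    rw [Fintype.card_prod, Fintype.card_prod, Fintype.card_fin, Fintype.card_fin,
      Fintype.card_fin] at h3
    have h4 := h (2 * L) h1
    have h5 : ((L - 3 * ν : ℕ) : ℤ) * (2 * ν) ≤ (Module.finrank ℂ (T.grB (2 * L)) : ℤ) := by
      exact_mod_cast h3
    rw [h4] at h5
    push_cast at h5
    exact h5
  have h1 := key (3 * ν + M + 3 * ν * ν + c.natAbs) (by omega) (by
    have : 0 ≤ 3 * ν * ν := Nat.zero_le _
    omega)
  have e1 : 3 * ν + M + 3 * ν * ν + c.natAbs - 3 * ν = M + 3 * ν * ν + c.natAbs := by omega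
  rw [e1] at h1
  push_cast at h1
  have hc : c ≤ |c| := le_abs_self c
  have h2 : ((d : ℤ) + 1) ≤ ν := by exact_mod_cast hlt
  have hc0 : (0 : ℤ) ≤ |c| := abs_nonneg c
  have hM : (0 : ℤ) ≤ M := Int.natCast_nonneg M
  have hn : (2 : ℤ) ≤ ν := by exact_mod_cast D.hν
  have hd : (0 : ℤ) ≤ d := Int.natCast_nonneg d
  nlinarith [mul_nonneg hM (sub_nonneg.mpr h2), mul_nonneg hc0 (sub_nonneg.mpr h2),
    mul_nonneg (mul_nonneg (by linarith : (0 : ℤ) ≤ ν) (by linarith : (0 : ℤ) ≤ ν))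
      (sub_nonneg.mpr h2), mul_nonneg (by linarith : (0 : ℤ) ≤ ν) (sub_nonneg.mpr h2)]

end Pool.Agent.Helper67.RG
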