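import Pool.Agent.Helper96.RG.IRR

/-!
# RG: module FRAC
-/

namespace Pool.Agent.Helper67.RG

open Polynomial

namespace FRAC

variable {ν : ℕ} {D : Pell ν} (T : Tower D)

/-- The polynomial `s`. -/
noncomputable def sP (D : Pell ν) : MvPolynomial (Fin 12) ℂ :=
  MvPolynomial.C ((D.lam 1 - D.lam 0)⁻¹) * (MvPolynomial.X 0 ^ 2 - MvPolynomial.X 1 ^ 2)

/-- The polynomial `t`. -/
noncomputable def tP (D : Pell ν) : MvPolynomial (Fin 12) ℂ :=
  MvPolynomial.C ((D.lam 1 - D.lam 0)⁻¹) * (MvPolynomial.C (D.lam 1) * MvPolynomial.X 0 ^ 2 -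
    MvPolynomial.C (D.lam 0) * MvPolynomial.X 1 ^ 2)

theorem xx_sq (i : Fin 12) :
    T.xx i ^ 2 = C tau * X ^ 2 - C (algebraMap ℂ Om (D.lam i)) * X ^ 2 := by
  rw [Tower.xx, ← C_mul_X_pow_eq_monomial, pow_one, mul_pow, ← C_pow, T.hr i, C_sub]
  ring

theorem lam_ne : D.lam 1 - D.lam 0 ≠ 0 := by
  rw [sub_ne_zero]
  intro h
  exact absurd (D.inj h) (by decide)

theorem alg_C (c : ℂ) : algebraMap ℂ Om[X] c = C (algebraMap ℂ Om c) := rfl

theorem inv_C : C (algebraMap ℂ Om ((D.lam 1 - D.lam 0)⁻¹)) *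
    (C (algebraMap ℂ Om (D.lam 1)) - C (algebraMap ℂ Om (D.lam 0))) = (1 : Om[X]) := by
  rw [← C_sub, ← C_mul, ← map_sub, ← map_mul, inv_mul_cancel₀ lam_ne, map_one, C_1]

theorem aeval_sP : MvPolynomial.aeval T.xx (sP D) = X ^ 2 := by
  rw [sP, map_mul, map_sub, map_pow, map_pow, MvPolynomial.aeval_X, MvPolynomial.aeval_X,
    ← MvPolynomial.algebraMap_eq, AlgHom.commutes, alg_C, xx_sq, xx_sq]
  linear_combination (X ^ 2 : Om[X]) * inv_C (D := D)

theorem aeval_tP : MvPolynomial.aeval T.xx (tP D) = C tau * X ^ 2 := by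
  rw [tP, map_mul, map_sub, map_mul, map_mul, map_pow, map_pow, MvPolynomial.aeval_X,
    MvPolynomial.aeval_X, ← MvPolynomial.algebraMap_eq, AlgHom.commutes, AlgHom.commutes,
    AlgHom.commutes, alg_C, alg_C, alg_C, xx_sq, xx_sq]
  linear_combination (C tau * X ^ 2 : Om[X]) * inv_C (D := D)

theorem hom_sP : (sP D).IsHomogeneous 2 := by
  have h := (MvPolynomial.isHomogeneous_C (Fin 12) ((D.lam 1 - D.lam 0)⁻¹)).mul
    ((MvPolynomial.isHomogeneous_X_pow (R := ℂ) (0 : Fin 12) 2).sub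
      (MvPolynomial.isHomogeneous_X_pow (R := ℂ) (1 : Fin 12) 2))
  rwa [zero_add] at h

theorem hom_tP : (tP D).IsHomogeneous 2 := by
  have h := (MvPolynomial.isHomogeneous_C (Fin 12) ((D.lam 1 - D.lam 0)⁻¹)).mul
    (((MvPolynomial.isHomogeneous_C (Fin 12) (D.lam 1)).mul
      (MvPolynomial.isHomogeneous_X_pow (R := ℂ) (0 : Fin 12) 2)).sub
      ((MvPolynomial.isHomogeneous_C (Fin 12) (D.lam 0)).mul
      (MvPolynomial.isHomogeneous_X_pow (R := ℂ) (1 : Fin 12) 2)))
  rwa [zero_add, zero_add] at h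

/-- Homogenization of a polynomial in `τ`. -/
noncomputable def hh (D : Pell ν) (d : ℕ) (P : ℂ[X]) : MvPolynomial (Fin 12) ℂ :=
  ∑ k ∈ Finset.range (d + 1), MvPolynomial.C (P.coeff k) * (tP D ^ k * sP D ^ (d - k))

theorem hom_hh (d : ℕ) (P : ℂ[X]) : (hh D d P).IsHomogeneous (2 * d) := by
  refine MvPolynomial.IsHomogeneous.sum _ _ _ fun k hk => ?_
  have h := (MvPolynomial.isHomogeneous_C (Fin 12) (P.coeff k)).mul
    (((hom_tP (D := D)).pow k).mul ((hom_sP (D := D)).pow (d - k)))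
  have e : 0 + (2 * k + 2 * (d - k)) = 2 * d := by
    have := Finset.mem_range.mp hk
    omega
  rwa [e] at h

theorem aeval_hh (d : ℕ) (P : ℂ[X]) (hd : P.natDegree ≤ d) :
    MvPolynomial.aeval T.xx (hh D d P) = monomial (2 * d) (aeval tau P) := by
  have h1 : aeval tau P = ∑ k ∈ Finset.range (d + 1), algebraMap ℂ Om (P.coeff k) * tau ^ k := by
    rw [aeval_eq_sum_range' (Nat.lt_succ_of_le hd)]
    exact Finset.sum_congr rfl fun k _ => Algebra.smul_def _ _
  rw [h1, map_sum, hh, map_sum]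
  refine Finset.sum_congr rfl fun k hk => ?_
  have hk' := Finset.mem_range.mp hk
  rw [map_mul, map_mul, map_pow, map_pow, aeval_sP, aeval_tP, ← MvPolynomial.algebraMap_eq,
    AlgHom.commutes, alg_C, ← C_mul_X_pow_eq_monomial, C_mul, C_pow]
  have e : (X : Om[X]) ^ (2 * d) = (X ^ 2) ^ k * (X ^ 2) ^ (d - k) := by
    rw [← pow_add, ← pow_mul]
    congr 1
    omega
  rw [e]
  ring

/-- `FRAC` for the element `z`. -/
def Good (j n : ℕ) (z : Om) : Prop :=
  ∃ (e : ℕ) (p : MvPolynomial (Fin 12) ℂ)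
    (s : Fin ν → MvPolynomial (Fin 12) ℂ), p.IsHomogeneous e ∧ MvPolynomial.aeval T.xx p ≠ 0 ∧
    (∀ i, s i = 0 ∨ ∃ k, (s i).IsHomogeneous k ∧ k + i * (2 * j) = e + n) ∧
    MvPolynomial.aeval T.xx p * monomial n z =
      ∑ i, MvPolynomial.aeval T.xx (s i) * monomial (2 * j) T.w ^ (i : ℕ)

theorem good_zero (j n : ℕ) : Good T j n 0 := by
  refine ⟨0, 1, 0, MvPolynomial.isHomogeneous_one _ _, ?_, fun i => Or.inl rfl, ?_⟩
  · rw [map_one]; exact one_ne_zero
  · simp

theorem good_add (j n : ℕ) {a b : Om} (ha : Good T j n a) (hb : Good T j n b) :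
    Good T j n (a + b) := by
  obtain ⟨e1, p1, s1, h1, n1, k1, q1⟩ := ha
  obtain ⟨e2, p2, s2, h2, n2, k2, q2⟩ := hb
  refine ⟨e1 + e2, p1 * p2, fun i => p2 * s1 i + p1 * s2 i, h1.mul h2, ?_, fun i => ?_, ?_⟩
  · rw [map_mul]; exact mul_ne_zero n1 n2
  · rcases k1 i with hs1 | ⟨k1', hs1, hk1⟩
    · rcases k2 i with hs2 | ⟨k2', hs2, hk2⟩
      · left; simp only [hs1, hs2, mul_zero, add_zero]
      · right
        refine ⟨e1 + k2', ?_, by omega⟩
        simp only [hs1, mul_zero, zero_add]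
        exact h1.mul hs2
    · rcases k2 i with hs2 | ⟨k2', hs2, hk2⟩
      · right
        refine ⟨e2 + k1', ?_, by omega⟩
        simp only [hs2, mul_zero, add_zero]
        exact h2.mul hs1
      · right
        refine ⟨e2 + k1', ?_, by omega⟩
        refine (h2.mul hs1).add ?_
        have e : e2 + k1' = e1 + k2' := by omega
        rw [e]
        exact h1.mul hs2
  · simp only [map_mul, map_add, add_mul, Finset.sum_add_distrib, mul_assoc, ← Finset.mul_sum]
    rw [← q1, ← q2]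
    ring

theorem good_smul (j n : ℕ) (c : RatFunc ℂ) {a : Om} (ha : Good T j n a) :
    Good T j n (c • a) := by
  obtain ⟨e, p, s, h, n0, k, q⟩ := ha
  obtain ⟨d, hd1, hd2⟩ : ∃ d : ℕ, c.denom.natDegree ≤ d ∧ c.num.natDegree ≤ d :=
    ⟨_, le_max_left _ _, le_max_right _ _⟩
  have hA : ∀ P : ℂ[X], aeval tau P = algebraMap (RatFunc ℂ) Om (algebraMap ℂ[X] (RatFunc ℂ) P) := by
    intro P
    rw [tau, aeval_algebraMap_apply, ← RatFunc.algebraMap_X, aeval_algebraMap_apply,
      aeval_X_left_apply]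
  have hden : aeval tau c.denom ≠ 0 := by
    rw [hA]
    refine (_root_.map_ne_zero _).mpr ?_
    exact RatFunc.algebraMap_ne_zero c.denom_ne_zero
  have hcd : aeval tau c.denom * (c • a) = aeval tau c.num * a := by
    rw [hA, hA, Algebra.smul_def, ← mul_assoc, ← map_mul]
    congr 2
    have h1 := c.num_div_denom
    have h2 : algebraMap ℂ[X] (RatFunc ℂ) c.denom ≠ 0 := RatFunc.algebraMap_ne_zero c.denom_ne_zero
    rw [div_eq_iff h2] at h1
    rw [h1, mul_comm]
  refine ⟨2 * d + e, hh D d c.denom * p, fun i => hh D d c.num * s i, (hom_hh _ _).mul h, ?_,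
    fun i => ?_, ?_⟩
  · rw [map_mul, aeval_hh T _ _ hd1]
    refine mul_ne_zero ?_ n0
    rwa [Ne, monomial_eq_zero_iff]
  · rcases k i with hs | ⟨k', hs, hk⟩
    · left; simp only [hs, mul_zero]
    · right
      exact ⟨2 * d + k', (hom_hh _ _).mul hs, by omega⟩
  · simp only [map_mul, mul_assoc, ← Finset.mul_sum]
    rw [← q, aeval_hh T _ _ hd1, aeval_hh T _ _ hd2]
    have e1 : ∀ b : Om, monomial n b = C b * X ^ n := fun b => (C_mul_X_pow_eq_monomial).symm
    rw [e1, e1, ← C_mul_X_pow_eq_monomial, ← C_mul_X_pow_eq_monomial]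
    have e2 := congrArg (C : Om → Om[X]) hcd
    rw [C_mul, C_mul] at e2
    linear_combination (X ^ (2 * d) * MvPolynomial.aeval T.xx p * X ^ n) * e2

theorem prod_xx (s : Finset (Fin 12)) :
    MvPolynomial.aeval T.xx (∏ i ∈ s, MvPolynomial.X (R := ℂ) i) = monomial s.card (T.rr s) := by
  classical
  induction s using Finset.induction_on with
  | empty => simp [Tower.rr]
  | insert a s ha ih =>
    rw [Finset.prod_insert ha, map_mul, ih, MvPolynomial.aeval_X, Tower.xx, monomial_mul_monomial,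
      Tower.rr, Tower.rr, Finset.prod_insert ha, Finset.card_insert_of_notMem ha, add_comm]

theorem hom_prod (s : Finset (Fin 12)) :
    (∏ i ∈ s, MvPolynomial.X (R := ℂ) i).IsHomogeneous s.card := by
  have h := MvPolynomial.IsHomogeneous.prod s (fun i => MvPolynomial.X (R := ℂ) i) (fun _ => 1)
    (fun i _ => MvPolynomial.isHomogeneous_X ℂ i)
  simpa using h

theorem good_base (j n : ℕ) (s : Finset (Fin 12)) (i : ℕ) (hi : i < ν)
    (hs : s.card % 2 = n % 2) : Good T j n (T.rr s * T.w ^ i) := by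
  classical
  refine ⟨2 * (s.card + j * i), sP D ^ (s.card + j * i), fun k => if (k : ℕ) = i then
    sP D ^ ((n + s.card) / 2) * ∏ i ∈ s, MvPolynomial.X i else 0, ?_, ?_, fun k => ?_, ?_⟩
  · exact (hom_sP (D := D)).pow _
  · rw [map_pow, aeval_sP]
    exact pow_ne_zero _ (pow_ne_zero _ X_ne_zero)
  · by_cases hk : (k : ℕ) = i
    · right
      refine ⟨2 * ((n + s.card) / 2) + s.card, ?_, ?_⟩
      · simp only [hk, if_true]
        exact ((hom_sP (D := D)).pow _).mul (hom_prod s)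
      · rw [hk]
        have : i * (2 * j) = 2 * (j * i) := by ring
        omega
    · left
      simp only [hk, if_false]
  · rw [Finset.sum_eq_single (⟨i, hi⟩ : Fin ν)]
    · simp only [if_true, map_mul, map_pow, aeval_sP, prod_xx, monomial_pow]
      rw [← pow_mul, ← pow_mul, ← monomial_one_right_eq_X_pow, ← monomial_one_right_eq_X_pow,
        monomial_mul_monomial, monomial_mul_monomial, monomial_mul_monomial]
      have e : 2 * (s.card + j * i) + n = 2 * ((n + s.card) / 2) + s.card + 2 * j * i := by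
        have : 2 * j * i = 2 * (j * i) := by ring
        omega
      rw [e, one_mul, one_mul]
    · intro b _ hb
      have : (b : ℕ) ≠ i := fun h => hb (Fin.ext h)
      simp only [this, if_false, map_zero, zero_mul]
    · intro h
      exact absurd (Finset.mem_univ _) h

theorem good_E (j n : ℕ) {z : Om} (hz : z ∈ T.E n) : Good T j n z := by
  rw [Tower.E] at hz
  induction hz using Submodule.span_induction with
  | mem x hx =>
    obtain ⟨s, i, hi, hs, rfl⟩ := hx
    exact good_base T j n s i hi hs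
  | zero => exact good_zero T j n
  | add x y _ _ hx hy => exact good_add T j n hx hy
  | smul c x _ hx => exact good_smul T j n c hx

end FRAC

open FRAC in
theorem st_FRAC : ST_FRAC := by
  intro ν D T j a ha n c hc
  obtain ⟨z, hz⟩ := hc
  have hE : z ∈ T.E n := by
    have := c.2.2 n
    rwa [hz, coeff_monomial, if_pos rfl] at this
  obtain ⟨e, p, s, h1, h2, h3, h4⟩ := good_E T j n hE
  refine ⟨e, p, s, h1, ?_, h3, ?_⟩
  · intro h0
    apply h2
    rw [← IRR.coe_aeval, h0]
    rfl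
  · apply Subtype.ext
    rw [Subalgebra.coe_mul, IRR.coe_aeval, hz, h4]
    simp only [AddSubmonoidClass.coe_finsetSum, Subalgebra.coe_mul, Subalgebra.coe_pow,
      IRR.coe_aeval, ha]

end Pool.Agent.Helper67.RG
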