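import Pool.Agent.Helper67.RG.EStmts

/-!
# RG: module IRR
-/

namespace Pool.Agent.Helper67.RG

open Polynomial

namespace IRR

variable {ν : ℕ} {D : Pell ν} (T : Tower D)

/-- The `ℂ(τ)`-span of the `r_s`. -/
noncomputable def S : Submodule (RatFunc ℂ) Om :=
  Submodule.span (RatFunc ℂ) (Set.range fun s : Finset (Fin 12) => T.rr s)

theorem rr_mem_S (s : Finset (Fin 12)) : T.rr s ∈ S T := Submodule.subset_span ⟨s, rfl⟩

theorem S_mul {a b : Om} (ha : a ∈ S T) (hb : b ∈ S T) : a * b ∈ S T := by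
  have h : S T * S T ≤ S T := by
    rw [S, Submodule.span_mul_span, Submodule.span_le]
    rintro _ ⟨_, ⟨s, rfl⟩, _, ⟨t, rfl⟩, rfl⟩
    show T.rr s * T.rr t ∈ S T
    rw [T.rr_mul]
    obtain ⟨c, hc⟩ := Tower.prod_mem (D := D) (s ∩ t)
    rw [hc, ← Algebra.smul_def]
    exact Submodule.smul_mem _ _ (rr_mem_S T _)
  exact h (Submodule.mul_mem_mul ha hb)

/-- Polynomials with coefficients in `S`. -/
noncomputable def SS : Subalgebra ℂ Om[X] where
  carrier := {P | ∀ m, P.coeff m ∈ S T}
  mul_mem' := by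
    rintro a b ha hb m
    rw [coeff_mul]
    exact Submodule.sum_mem _ fun p _ => S_mul T (ha _) (hb _)
  add_mem' := by
    rintro a b ha hb m
    rw [coeff_add]
    exact Submodule.add_mem _ (ha _) (hb _)
  algebraMap_mem' := by
    intro c m
    have : algebraMap ℂ Om[X] c = C (algebraMap ℂ Om c) := rfl
    rw [this, coeff_C]
    split_ifs with h
    · have h1 := Submodule.smul_mem (S T) (algebraMap ℂ (RatFunc ℂ) c) (rr_mem_S T ∅)
      rw [Algebra.smul_def, ← IsScalarTower.algebraMap_apply ℂ (RatFunc ℂ) Om, Tower.rr,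
        Finset.prod_empty, mul_one] at h1
      exact h1
    · exact Submodule.zero_mem _

theorem xx_mem_SS (i : Fin 12) : T.xx i ∈ SS T := by
  intro m
  rw [Tower.xx, coeff_monomial]
  split_ifs with h
  · have := rr_mem_S T {i}
    rwa [Tower.rr, Finset.prod_singleton] at this
  · exact Submodule.zero_mem _

theorem coe_aeval (P : MvPolynomial (Fin 12) ℂ) :
    ((MvPolynomial.aeval T.x P : T.B) : Om[X]) = MvPolynomial.aeval T.xx P := by
  have h : (T.B.val.comp (MvPolynomial.aeval T.x)) = MvPolynomial.aeval T.xx := by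
    apply MvPolynomial.algHom_ext
    intro i
    simp only [AlgHom.comp_apply, MvPolynomial.aeval_X]
    rfl
  exact DFunLike.congr_fun h P

theorem aeval_mem_SS (P : MvPolynomial (Fin 12) ℂ) : MvPolynomial.aeval T.xx P ∈ SS T := by
  have h : (MvPolynomial.aeval T.xx P) ∈ (MvPolynomial.aeval (R := ℂ) T.xx).range := ⟨P, rfl⟩
  rw [← Algebra.adjoin_range_eq_range_aeval] at h
  refine Algebra.adjoin_le ?_ h
  rintro _ ⟨i, rfl⟩
  exact xx_mem_SS T i

theorem key (hI : ST_IND) (c : Fin ν → Om) (hc : ∀ i, c i ∈ S T)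
    (h0 : ∑ i, c i * T.w ^ (i : ℕ) = 0) : ∀ i, c i = 0 := by
  classical
  have h1 : ∀ i, ∃ γ : Finset (Fin 12) → RatFunc ℂ, ∑ s, γ s • T.rr s = c i := by
    intro i
    have := hc i
    rw [S, Submodule.mem_span_range_iff_exists_fun] at this
    exact this
  choose γ hγ using h1
  have h2 := Fintype.linearIndependent_iff.mp (hI ν D T) (fun p => γ p.2 p.1) (by
    rw [Fintype.sum_prod_type_right]
    rw [← h0]
    refine Finset.sum_congr rfl fun i _ => ?_
    rw [← hγ i, Finset.sum_mul]
    refine Finset.sum_congr rfl fun s _ => ?_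
    simp only [Algebra.smul_def, mul_assoc])
  intro i
  rw [← hγ i]
  exact Finset.sum_eq_zero fun s _ => by rw [h2 (s, i), zero_smul]

theorem coeff_mul_mono (p : Om[X]) (m n : ℕ) (r : Om) :
    (p * monomial m r).coeff n = (if m ≤ n then p.coeff (n - m) else 0) * r := by
  rw [← C_mul_X_pow_eq_monomial, ← mul_assoc, coeff_mul_X_pow', coeff_mul_C]
  split_ifs
  · rfl
  · rw [zero_mul]

end IRR

open IRR in
theorem st_IRR (hI : ST_IND) : ST_IRR := by
  intro ν D T j a ha s h0 i0
  apply Subtype.ext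
  rw [coe_aeval]
  show _ = (0 : Om[X])
  ext k
  have h1 : ∑ i : Fin ν, MvPolynomial.aeval T.xx (s i) * monomial (2 * j * i) (T.w ^ (i : ℕ)) = 0 := by
    have h2 := congrArg (fun z : T.B => (z : Om[X])) h0
    simp only [AddSubmonoidClass.coe_finsetSum, Subalgebra.coe_mul, Subalgebra.coe_pow,
      coe_aeval, ha, monomial_pow] at h2
    exact h2
  have h3 := congrArg (fun z : Om[X] => z.coeff (k + 2 * j * i0)) h1
  simp only [finsetSum_coeff, coeff_mul_mono, coeff_zero] at h3
  have h4 := key T hI (fun i : Fin ν => if 2 * j * (i : ℕ) ≤ k + 2 * j * i0 then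
    (MvPolynomial.aeval T.xx (s i)).coeff (k + 2 * j * i0 - 2 * j * i) else 0) (by
      intro i
      split_ifs
      · exact aeval_mem_SS T (s i) _
      · exact Submodule.zero_mem _) h3 i0
  rw [if_pos (Nat.le_add_left _ _), Nat.add_sub_cancel] at h4
  rw [h4, coeff_zero]

end Pool.Agent.Helper67.RG
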